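import Pool.Agent.H175F.Final
import Pool.Agent.H175R2.Cw

/-!
# MP_7588da_co, Q1: the implication for (gem, `P_2 + P_3`)-free graphs

The class of (gem, `P_2 + P_3`)-free graphs has bounded clique-width (decomposition trees of bounded
width are constructed in `Pool.Agent.H175F`), hence the implication holds.
-/

set_option autoImplicit false

open SimpleGraph Pool.Agent.H175R2

namespace Pool.Agent.Results.MP_7588da_co.WqoImpliesBounded

/-- The gem: the complement of `P_1 + P_4` (the path `0-1-2-3` and the isolated vertex `4`). -/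
def gem : SimpleGraph (Fin 5) := (SimpleGraph.fromRel (fun a b => a.val + 1 = b.val ∧ b.val ≤ 3))ᶜ

/-- `P_2 + P_3`: the disjoint union of the paths `0-1` and `2-3-4`. -/
def P2P3 : SimpleGraph (Fin 5) := SimpleGraph.fromRel (fun a b =>
  (a.val = 0 ∧ b.val = 1) ∨ (a.val = 2 ∧ b.val = 3) ∨ (a.val = 3 ∧ b.val = 4))

/-- `G` is (gem, `P_2 + P_3`)-free. -/
def InC {V : Type} (G : SimpleGraph V) : Prop :=
  ¬ gem.IsIndContained G ∧ ¬ P2P3.IsIndContained G

/-- The class of finite (gem, `P_2 + P_3`)-free graphs is well-quasi-ordered by the induced subgraph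
relation: there is no infinite sequence of graphs of the class none of which is isomorphic to an
induced subgraph of another. (Every finite graph is isomorphic to one on a set `Fin n`.) -/
def WQO : Prop :=
  ¬ ∃ (n : ℕ → ℕ) (G : ∀ i, SimpleGraph (Fin (n i))), (∀ i, InC (G i)) ∧
    ∀ i j, i ≠ j → ¬ (G i).IsIndContained (G j)

/-- One constant bounds the clique-width of all finite nonempty (gem, `P_2 + P_3`)-free graphs. -/
def BoundedCliqueWidth : Prop :=
  ∃ k : ℕ, ∀ (V : Type) [Finite V] [Nonempty V] (G : SimpleGraph V), InC G → CwLE G k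

/-- If the class of (gem, `P_2 + P_3`)-free graphs is well-quasi-ordered by the induced subgraph
relation, then it has bounded clique-width. -/
theorem result : WQO → BoundedCliqueWidth := by
  intro _
  obtain ⟨K, hK⟩ := Pool.Agent.H175G.main_stmt
  refine ⟨3 * (K + 1), fun V _ _ G hG => ?_⟩
  have : Fintype V := Fintype.ofFinite V
  have hg : Pool.Agent.H175G.NoGem G :=
    Pool.Agent.H175G.noGem_of (not_nonempty_iff.1 hG.1)
  have hp : Pool.Agent.H175G.NoP23 G :=
    Pool.Agent.H175G.noP23_of (not_nonempty_iff.1 hG.2)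
  exact cwLE_of_dt (hK V G hg hp Finset.univ Finset.univ_nonempty)

end Pool.Agent.Results.MP_7588da_co.WqoImpliesBounded
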